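import Pool.Agent.K4H47.BR.XAsm
import Pool.Agent.K4H47.BR.Sch
import Pool.Agent.K4H47.BR.Loc
import Pool.Agent.K4H47.BR.Cmp
import Pool.Agent.K4H47.BR.Drift
import Pool.Agent.K4H47.BR.Ends
import Pool.Agent.K4H47.BR.CH
import Pool.Agent.K4H47.BR.Mon
import Pool.Agent.K4H47.BR.Resc
import Pool.Agent.K4H47.BR.Per
import Pool.Agent.K4H47.BR.Zorn
import Pool.Agent.K4H47.BR.Baire
import Pool.Agent.K4H47.BR.Circ
import Pool.Agent.K4H47.BR.Lift
import Pool.Agent.K4H47.BR.Brody
import Pool.Agent.K4H47.BR.Grow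
import Pool.Agent.K4H47.BR.Exp
import Pool.Agent.K4H47.BR.Uniq

/-!
# Compact complex manifolds with countably many entire curves

Let `M` be a compact complex manifold and `X` a closed subset of `M` (for example `X = M`, or a
singular projective variety in `M = ℙ^N`). Suppose that there is a countable set `S` of
nonconstant entire curves `ℂ → M`, injective modulo their periods off a countable set and with
images that meet pairwise in countable sets, such that every nonconstant entire curve with values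
in `X` is `s ∘ φ` with `s ∈ S` and `φ` an entire function. Then for every nonconstant entire curve
`f` with values in `X` the closure of `f(ℂ)` contains the image of a doubly periodic `s ∈ S`, that
is, the image of a nonconstant holomorphic map from an elliptic curve.
-/

set_option autoImplicit false

open Set
open scoped Manifold

namespace Pool.Agent.Results.MP_45e720_ag.CountablyManyEntireCurves

theorem result (E : Type) [NormedAddCommGroup E] [NormedSpace ℂ E] [FiniteDimensional ℂ E]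
    (M : Type) [TopologicalSpace M] [T2Space M] [CompactSpace M] [ChartedSpace E M]
    [IsManifold 𝓘(ℂ, E) 1 M] (X : Set M) (hX : IsClosed X)
    (S : Set (ℂ → M)) (hS : S.Countable)
    (hS1 : ∀ s ∈ S, MDifferentiable 𝓘(ℂ, ℂ) 𝓘(ℂ, E) s ∧ ∃ z z', s z ≠ s z')
    (hS2 : ∀ s ∈ S, {w : ℂ | ∃ w', s w' = s w ∧ ¬ ∀ z, s (z + (w' - w)) = s z}.Countable)
    (hS3 : ∀ s ∈ S, ∀ s' ∈ S, s ≠ s' → (range s ∩ range s').Countable)
    (hS4 : ∀ f : ℂ → M, MDifferentiable 𝓘(ℂ, ℂ) 𝓘(ℂ, E) f → range f ⊆ X → (∃ z z', f z ≠ f z') →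
      ∃ s ∈ S, ∃ φ : ℂ → ℂ, Differentiable ℂ φ ∧ f = s ∘ φ)
    (f : ℂ → M) (hf : MDifferentiable 𝓘(ℂ, ℂ) 𝓘(ℂ, E) f) (hfX : range f ⊆ X)
    (hf' : ∃ z z', f z ≠ f z') :
    ∃ s ∈ S, range s ⊆ closure (range f) ∧ ∃ ω₁ ω₂ : ℂ, LinearIndependent ℝ ![ω₁, ω₂] ∧
      (∀ z, s (z + ω₁) = s z) ∧ ∀ z, s (z + ω₂) = s z := by
  refine Pool.Agent.K4H47.BR.finalX E (fun N _ _ _ _ => ?_) M X hX S hS hS1 hS2 hS3 hS4 f hf hfX hf'
  exact
    { a1 := Pool.Agent.K4H47.BR.a1 E N
      a2 := Pool.Agent.K4H47.BR.a2 E N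
      a3 := Pool.Agent.K4H47.BR.a3 E N
      d1 := Pool.Agent.K4H47.BR.d1 E N
      d2 := Pool.Agent.K4H47.BR.d2
      c1 := Pool.Agent.K4H47.BR.c1
      c2 := Pool.Agent.K4H47.BR.c2
      c3 := Pool.Agent.K4H47.BR.c3
      f := Pool.Agent.K4H47.BR.f
      e1 := Pool.Agent.K4H47.BR.e1
      e2 := Pool.Agent.K4H47.BR.e2
      h := Pool.Agent.K4H47.BR.h
      l := Pool.Agent.K4H47.BR.l E N
      r := Pool.Agent.K4H47.BR.r E N
      k := Pool.Agent.K4H47.BR.k E N
      g := Pool.Agent.K4H47.BR.g E N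
      g2 := Pool.Agent.K4H47.BR.g2 E N
      n := Pool.Agent.K4H47.BR.n E N }

end Pool.Agent.Results.MP_45e720_ag.CountablyManyEntireCurves
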