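import Pool.Agent.K4H65.DM.Tow

/-!
MP_45e720_ag, Q1: maps from complex tori and hyperbolicity, for the projective varieties with
multivalued maps to iterated fibrations with multiple fibres.

`V = {Υ = 0}` is a projective variety with morphisms `b 0, ..., b (n - 1)` to the projective line
(`LineMap`). For every `p` and every point `x` of `V`, the fibre `V'` of
`(b 0, ..., b (p - 1)) : V → (P^1)^p` which contains `x` has multiple fibres with respect to `b p`:
the arcs in `V'` meet the fibres of `b p` over the points `c` of some finite set `A` with contact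
order `0`, `∞` or at least `mu c` (`FibreMultiple`), and these multiplicities are large with respect
to `r` (`Wide`): for all `g, j ≥ 1` with `g j ≤ r` the sum of the numbers `1 - 1 / ⌈mu c / g⌉`,
`c ∈ A`, is larger than `2 j`. This holds for instance if `mu c > r` for all `c ∈ A` and
`∑ (1 - 1 / mu c) > 2 r` (`wide_example`). The set `A` and the multiplicities can depend in any way
on `V'` (`Iterated`), and nothing is assumed for the arcs which are not in a fibre `V'`. For example

* let `F (t 0, t 1)` be a polynomial such that all polynomials `F (q, T)` have many zeros, and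
  `k > r` a prime number which is larger than the degree of `F` in `t 1`. `V` is the normalization
  of the covering of `P^1 × P^1` which is given by the `k`-th roots of `F (t 0, t 1)` and of a
  polynomial in `t 0` with many simple zeros. Then the multiple fibres of `b 1` on the fibres of
  `b 0` lie over the zeros of `F (q, T)`, and they move with `q`; `V` is a family of curves with
  varying moduli, and with degenerate members over the points `q` where `F (q, T)` has double zeros.

`X = {Φ = 0}` is a projective variety, `G : W → X` is a surjective morphism (`Mor`, `Onto`) from a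
projective variety `W = {Ψ = 0}`, and `g 1, ..., g N` are morphisms from `W` to `V` (`PMap`) with at
most `r` values on each fibre of `G` (`ValuesLe`): multivalued maps from `X` to `V` with at most `r`
values. For example `G` is finite with fibres of at most `r` points, `W = V` and `g 1` is the
identity, or `X = Sym^r (V)`, `W = V^r` and the `g i` are the projections.

1. The images of all nonconstant entire curves in `X` lie in the images under `G` of the fibres of
   the morphism `B : x ↦ (b p (g i (x)))` from `W` to `(P^1)^(N n)` (`values`).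
2. Q1 holds for `X` if it holds for the images of the fibres of `B` (`fibreImage`): if every
   holomorphic map from a complex torus to `X` is constant, then every holomorphic map from the
   complex plane to `X` is constant.
3. If `B` is quasi-finite outside a closed subset `Z` of `W` (`FiniteOff`), then all nonconstant
   entire curves in `X` lie in `G (Z)`.
4. If `B` is finite, then Q1 holds for `X`: every holomorphic map from the complex plane to `X` is
   constant. Moreover no closed subvariety of positive dimension of `X` is special.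

The definitions are in `Pool/Agent/K4H65/DM/TowDefs.lean` (`ValuesLe`, `FibreMultiple`, `Iterated`),
`Pool/Agent/K4H65/DM/SymDefs.lean` (`PMap`, `PMap.At`, `values`),
`Pool/Agent/K4H65/DM/OffDefs.lean` (`FiniteOff`), `Pool/Agent/K4H65/DM/FinDefs.lean` (`LineMap`,
`LineMap.At`, `FiniteFibres`, `fibreImage`), `Pool/Agent/K4H65/DM/Defs.lean` (`Wide`),
`Pool/Agent/Y221/FQ/Defs.lean` (`Mor`, `Onto`, `Entire`), `Pool/Agent/TH182/TC/Core.lean`
(`TorusRigid`) and `Pool/Agent/W602/GT/SpecDefs.lean` (`Special`; the boundary is empty).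
-/

set_option autoImplicit false

namespace Pool.Agent.Results.MP_45e720_ag.IteratedFibrations

open Pool.Agent.K4H65.DM Pool.Agent.Y221.FQ
open Pool.Agent.W602.GT (Cone IsForm SubVar Special val)
open Pool.Agent.TH182.TC (TorusRigid)

/-- **Maps from tori and hyperbolicity of the varieties with multivalued maps to iterated fibrations
with multiple fibres.** -/
theorem result {m l M n N r : ℕ} {κ υ μ : Type} {Ψ : κ → MvPolynomial (Fin (m + 1)) ℂ}
    {Υ : υ → MvPolynomial (Fin (l + 1)) ℂ} {Φ : μ → MvPolynomial (Fin (M + 1)) ℂ}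
    {G : Fin (M + 1) → MvPolynomial (Fin (m + 1)) ℂ}
    (hΨ : ∀ e, IsForm (Ψ e)) (hΥ : ∀ e, IsForm (Υ e)) (hG : Mor Ψ Φ G) (hon : Onto Ψ Φ G)
    (g : Fin N → PMap Ψ Υ) (hval : ∀ i, ValuesLe G (g i) r)
    (b : Fin n → LineMap Υ) (hit : Iterated r b) :
    (∀ f, Entire Φ f → ∃ q : Fin (N * n) → Fin 2 → ℂ, ∀ t, ∃ x ∈ Cone Ψ,
      (∀ j, (values b g j).At x (q j)) ∧ im G x = f t) ∧
    ((∀ q, TorusRigid (fibreImage G (values b g) q) →
        ∀ f, ¬ Entire (fibreImage G (values b g) q) f) →
      TorusRigid Φ → ∀ f, ¬ Entire Φ f) ∧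
    (∀ (ι : Type) (Θ : ι → MvPolynomial (Fin (m + 1)) ℂ), (∀ e, IsForm (Θ e)) →
      FiniteOff (values b g) Θ → ∀ f, Entire Φ f → ∀ t, ∃ x ∈ Cone Ψ,
        (∀ e, val x (Θ e) = 0) ∧ im G x = f t) ∧
    (FiniteFibres (values b g) → (∀ f, ¬ Entire Φ f) ∧
      ∀ (K : Type) [Field K] [Algebra ℂ K] (w : ℕ) (z : Fin (M + 1) → K), 1 ≤ w →
        SubVar Φ K w z → ¬ Special ℂ K w (fun _ => False)) := by
  have h3 : ∀ (ι : Type) (Θ : ι → MvPolynomial (Fin (m + 1)) ℂ), (∀ e, IsForm (Θ e)) →
      FiniteOff (values b g) Θ → ∀ f, Entire Φ f → ∀ t, ∃ x ∈ Cone Ψ,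
        (∀ e, val x (Θ e) = 0) ∧ im G x = f t := fun ι Θ hΘ hfin f hf t =>
    closed_off hΨ hΘ hG ((entire_iterated_off hΨ hΥ hG hon hval hit hfin hf).mem t)
  have hone : ∀ (x : Fin (m + 1) → ℂ),
      val x ((fun _ : Unit => (1 : MvPolynomial (Fin (m + 1)) ℂ)) ()) ≠ 0 := by
    intro x h0
    unfold Pool.Agent.W602.GT.val at h0
    rw [map_one] at h0
    exact one_ne_zero h0
  refine ⟨fun f hf => ?_, fun h hT f hf => ?_, h3, fun hfin => ⟨fun f hf => ?_,
    fun K _ _ w z hw hz hsp => ?_⟩⟩
  · obtain ⟨q, hq⟩ := entire_iterated hΨ hΥ hG hon hval hit hf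
    exact ⟨q, fun t => closed_fibre hΨ hG (hq.mem t)⟩
  · obtain ⟨q, hq⟩ := entire_iterated hΨ hΥ hG hon hval hit hf
    exact h q (torus_fibre hΨ hG hT) f hq
  · obtain ⟨x, -, hx, -⟩ := h3 Unit (fun _ => 1)
      (fun _ => ⟨0, MvPolynomial.isHomogeneous_one _ _⟩)
      (fun F _ _ u t hu huΨ _ ht i j hj => hfin F u t hu huΨ ht i j hj) f hf 0
    exact hone x (hx ())
  · have h4 := special_iterated_off (Θ := fun _ : Unit => (1 : MvPolynomial (Fin (m + 1)) ℂ))
      hΨ hΥ hG hon hval hit
      (fun F _ _ u t hu huΨ _ ht i j hj => hfin F u t hu huΨ ht i j hj) hz hw hsp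
      ⟨1, ⟨0, MvPolynomial.isHomogeneous_one _ _⟩, fun x _ hx => absurd (hx ()) (hone x)⟩
    have h5 : val z (1 : MvPolynomial (Fin (M + 1)) ℂ) = 1 := map_one _
    change val z (1 : MvPolynomial (Fin (M + 1)) ℂ) = 0 at h4
    rw [h5] at h4
    exact one_ne_zero h4

/-- The simplest case of the condition on the multiplicities. -/
theorem wide_example {r : ℕ} {S : Finset ℂ} {m : ℂ → ℕ} (hm : ∀ c ∈ S, r < m c)
    (hsum : 2 * (r : ℝ) < ∑ c ∈ S, (1 - 1 / (m c : ℝ))) : Wide r S m :=
  wide_of hm hsum

end Pool.Agent.Results.MP_45e720_ag.IteratedFibrations
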