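import Pool.Agent.K4H25.MG.H
/-!
# Maps to projective lines with jointly multiple fibres

Let `X` be a projective variety over the complex numbers (possibly singular), `Z` a closed subset, and
`b = (b 1, ..., b n)` rational maps from `X` to the projective line. The classical criterion (Nevanlinna)
for the degeneracy of entire curves in the fibres of a single map `b p` asks for multiple fibres: the
contact orders of the arcs in `X` with the fibre over `c` are at least `μ c` with `∑ (1 - 1 / μ c) > 2`.
Here the fibres of every single map `b p` may have reduced components on the resolutions of `X` (so that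
its orbifold base is trivial): only the contact orders of an arc with the fibres of the different maps
*together* are bounded from below.

The condition (`Joint`). For every nonempty set `I` of indices, and all points `q p` of the line, `p ∉ I`,
there are weights `α p > 0` and `δ p c ≤ 1` (they may be negative, and depend on `I` and on the points
`q p`, that is, on the fibre of `(b p), p ∉ I`) for the indices `p` in a nonempty subset `J` of `I`, with
`∑ c, δ p c > 2`, such that
`∑_{p ∈ J} α p (k p (1 - δ p (c p)) - 1) ≥ 0`
for all arcs of `X` which are not contained in `Z`, on which the maps `b p` have the constant values `q p`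
for `p ∉ I` and are not constant for `p ∈ I`; here `c p` is the value of `b p` at the origin of the arc
and `k p` the contact order of the arc with the fibre over `c p`. (For `J = {p}` this says that
`k p ≥ 1 / (1 - δ p c)`: these are the classical multiple fibres.)

**Theorem.** Under this condition
1. every nonconstant entire curve in `X` lies in `Z` or in a fibre of `b`;
2. if Q1 is true for `Z` and for the fibres of `b`, then it is true for `X`: if all holomorphic maps from
   complex tori to `X` are constant, then all entire curves in `X` are constant;
3. if the fibres of `b` are finite outside `Z`, then `Z` contains all nonconstant entire curves in `X`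
   (so `X` is hyperbolic if `Z` is empty).
4. *Example.* Let `X` be the cyclic covering `W ^ μ X_0 ^ e = ∏_p ∏_{c ∈ A p} (X_p - c X_0)` of the
   projective space of any dimension `n`, for finite sets `A p` of numbers whose orders are divisible by
   `μ`, with `μ > n` and `(μ - n) |A p| > 2 μ` for all `p`. Then all nonconstant entire curves in `X` lie in
   `{W X_0 = 0}`. Here the coordinates `b p = X_p / X_0` satisfy the condition with `α p = 1` and
   `δ p c = 1 - n / μ` for `c ∈ A p`: if an arc meets the fibres over `c p ∈ A p` with the contact orders
   `k p` for the indices `p` in a set `S`, then `μ` divides `∑_{p ∈ S} k p`, so this sum is at least `μ`.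

Proof of 1. Let `f` be an entire curve not in `Z`, `I` the set of indices `p` for which `τ p = b p ∘ f` is not
constant, and assume that it is not empty. We take natural numbers `α p`. The forms
`∏_{p ∈ J} (φ p (τ p) (τ p') ^ N) ^ α p`, where `φ p` is a rational function on the line such that
`φ p dx^N` has poles of order at most `N δ p c` at the points `c`, are holomorphic on `ℂ`, by the
condition, and their proximity functions are small, by the lemma on the logarithmic derivative. Since
`∑ c, δ p c > 2` we can choose the functions `φ p` in families which separate the values of the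
functions `τ p`, so `τ p` is of small growth, also after the composition with the exponential function,
a contradiction. There is no assumption on the singularities of `X`, and the maps need only be defined on
an open subset.
-/

set_option autoImplicit false
set_option linter.overlappingInstances false
set_option maxHeartbeats 4000000
set_option synthInstance.maxHeartbeats 400000

open MvPolynomial

namespace Pool.Agent.Results.MP_45e720_ag.JointMultipleFibres

open Pool.Agent.W602.GT Pool.Agent.Y221.FQ Pool.Agent.K4H25.EN
open Pool.Agent.TH182.TC (TorusRigid)

/-- **Jointly multiple fibres.** `X` is the projective variety with the equations `Ψ`, `Z` its closed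
subset with the equations `Θ`, and `b 1, ..., b n` are rational maps from `X` to the projective line which
are jointly multiple outside `Z` (`Joint`). -/
theorem result :
    (∀ {m n : ℕ} {κ υ : Type} (Ψ : κ → MvPolynomial (Fin (m + 1)) ℂ) (_ : ∀ i, IsForm (Ψ i))
      (Θ : υ → MvPolynomial (Fin (m + 1)) ℂ) (_ : ∀ i, IsForm (Θ i)) (b : Fin n → LineRat Ψ)
      (_ : Joint b Θ),
      (∀ f : ℂ → Fin (m + 1) → ℂ, Entire Ψ f →
        (∀ t e, val (f t) (Θ e) = 0) ∨ ∃ q : Fin n → Fin 2 → ℂ, ∀ t p, (b p).Fibre (f t) (q p)) ∧
      ((TorusRigid (Sum.elim Ψ Θ) → ∀ f, ¬ Entire (Sum.elim Ψ Θ) f) →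
        (∀ q : Fin n → Fin 2 → ℂ, (∀ p, q p ≠ 0) →
          TorusRigid (fibreEq b q) → ∀ f, ¬ Entire (fibreEq b q) f) →
        TorusRigid Ψ → ∀ f, ¬ Entire Ψ f) ∧
      (ZeroDimOff b Θ → ∀ f, Entire Ψ f → ∀ t e, val (f t) (Θ e) = 0)) ∧
    ∀ (n μ : ℕ) (A : Fin n → Finset ℂ), 0 < n → n < μ → (∀ p, μ ∣ (A p).card) →
      (∀ p, 2 * μ < (μ - n) * (A p).card) →
      (∀ i, IsForm (cycEq A μ i)) ∧ Joint (cycMap A μ) (cycOff n) ∧
        ∀ f, Entire (cycEq A μ) f → ∀ t, f t (Fin.last (n + 1)) * f t 0 = 0 := by
  classical
  refine ⟨fun {m n κ υ} Ψ _ Θ _ b hJ => ⟨fun f hf => ?_, fun h1 h2 hT f hf =>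
    torus_joint hJ h1 h2 hT f hf, fun hfin f hf t e => entire_joint_off hJ hfin hf t e⟩,
    fun n μ A hn hμ hdvd hdeg => ?_⟩
  · by_cases hoff : ∃ t e, val (f t) (Θ e) ≠ 0
    · exact Or.inr (entire_joint hJ hf hoff)
    · push Not at hoff
      exact Or.inl hoff
  · have hpos : ∀ p, 0 < (A p).card := by
      intro p
      rcases Nat.eq_zero_or_pos (A p).card with h | h
      · have := hdeg p
        rw [h] at this
        omega
      · exact h
    have hle : μ ≤ ∑ p, (A p).card := by
      have h1 : (A ⟨0, hn⟩).card ≤ ∑ p, (A p).card :=
        Finset.single_le_sum (f := fun p => (A p).card) (fun _ _ => Nat.zero_le _)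
          (Finset.mem_univ _)
      exact (Nat.le_of_dvd (hpos _) (hdvd _)).trans h1
    have hJ := cyc_joint A hle hμ hdvd hdeg
    refine ⟨cycEq_form A hle, hJ, fun f hf t => ?_⟩
    have h1 := entire_joint_off hJ (cyc_zeroDim A hle (by omega)) hf t ()
    unfold cycOff val at h1
    rw [map_mul, aeval_X, aeval_X] at h1
    exact h1

end Pool.Agent.Results.MP_45e720_ag.JointMultipleFibres
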