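import Pool.Agent.K4H65.DM.SymCamp

/-!
MP_45e720_ag, Q1: maps from complex tori and hyperbolicity, for the projective varieties with an
`s`-valued map to a variety with multiple fibres over projective lines.

`V = {Υ = 0}` is a projective variety with morphisms `b 1, ..., b n` to the projective line
(`LineMap`). The fibre of `b p` over each point `c` of a finite set `A p` has multiplicity at least
`mu p c` (`LineMap.Multiple`). The multiplicities are large with respect to `s` (`Wide`): for all
`g, j ≥ 1` with `g j ≤ s` and all `p` the sum of the numbers `1 - 1 / ⌈mu p c / g⌉`, `c ∈ A p`, is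
larger than `2 j`. This holds for instance if `mu p c > s` for all `c ∈ A p` and
`∑ (1 - 1 / mu p c) > 2 s` (`wide_example`).

`X = {Φ = 0}` is a projective variety with an `s`-valued map to `V`: there are a projective variety
`W = {Ψ = 0}`, a surjective morphism `G : W → X` (`Mor`, `Onto`) and morphisms `g 1, ..., g s` from
`W` to `V` (`PMap`) such that the set `{g 1 (x), ..., g s (x)}` depends only on `G (x)`
(`Permuted`). The fibres of `G` can have any number of points, or positive dimension. For example

* `X` is the symmetric power `Sym^s (V)`, or any closed subvariety of it, `W = V^s` or the preimage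
  in `V^s`, and the `g i` are the projections. Here `G` has degree `s!`, but only `s` has to be small
  with respect to the multiplicities.

The images under `G` of the fibres of the morphism `x ↦ (b p (g i (x)))` from `W` to
`(P^1)^(s n)` (`values`) are closed subsets of `X` (`fibreImage`).

1. The images of all nonconstant entire curves in `X` lie in the images of the fibres.
2. Q1 holds for `X` if it holds for the images of the fibres: if every holomorphic map from a complex
   torus to `X` is constant, then every holomorphic map from the complex plane to `X` is constant.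
3. If the morphism `W → (P^1)^(s n)` is finite, then Q1 holds for `X`: every holomorphic map from the
   complex plane to `X` is constant, and also all closed subvarieties of positive dimension of `X`
   are of general type.

An entire curve in `X` has a lift to `W` only over a (transcendental) covering of the plane of
unbounded degree. But each `g i` has at most `s` values on this lift, so it is defined over an
algebroid extension of degree at most `s`. The degree can be smaller than `s`, and different for
different `i`. For the subvarieties of `X` the extensions of their function fields which belong to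
the different `i` are different; the pluricanonical forms are constructed from norms of the
minimal polynomials of all of them.

The definitions are in `Pool/Agent/K4H65/DM/SymDefs.lean` (`PMap`, `PMap.At`, `Permuted`, `values`),
`Pool/Agent/K4H65/DM/FinDefs.lean` (`LineMap`, `LineMap.At`, `LineMap.Multiple`, `FiniteFibres`,
`fibreImage`), `Pool/Agent/K4H65/DM/Defs.lean` (`Wide`), `Pool/Agent/Y221/FQ/Defs.lean` (`Mor`,
`Onto`, `Entire`, `AllGeneral`) and `Pool/Agent/TH182/TC/Core.lean` (`TorusRigid`).
-/

set_option autoImplicit false

namespace Pool.Agent.Results.MP_45e720_ag.MultivaluedMaps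

open Pool.Agent.K4H65.DM Pool.Agent.Y221.FQ
open Pool.Agent.W602.GT (Cone IsForm)
open Pool.Agent.TH182.TC (TorusRigid)

/-- **Maps from tori and hyperbolicity of the varieties with multivalued maps to varieties with
multiple fibres.** -/
theorem result {m l M n s : ℕ} {κ υ μ : Type} {Ψ : κ → MvPolynomial (Fin (m + 1)) ℂ}
    {Υ : υ → MvPolynomial (Fin (l + 1)) ℂ} {Φ : μ → MvPolynomial (Fin (M + 1)) ℂ}
    {G : Fin (M + 1) → MvPolynomial (Fin (m + 1)) ℂ}
    (hΨ : ∀ e, IsForm (Ψ e)) (hΥ : ∀ e, IsForm (Υ e)) (hG : Mor Ψ Φ G) (hon : Onto Ψ Φ G)
    (g : Fin s → PMap Ψ Υ) (hperm : Permuted G g)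
    (b : Fin n → LineMap Υ) (A : Fin n → Finset ℂ) (mu : Fin n → ℂ → ℕ)
    (hb : ∀ p, (b p).Multiple (A p) (mu p)) (hwide : ∀ p, Wide s (A p) (mu p)) :
    (∀ f, Entire Φ f → ∃ q : Fin (s * n) → Fin 2 → ℂ, ∀ t, ∃ x ∈ Cone Ψ,
      (∀ j, (values b g j).At x (q j)) ∧ im G x = f t) ∧
    ((∀ q, TorusRigid (fibreImage G (values b g) q) →
        ∀ f, ¬ Entire (fibreImage G (values b g) q) f) →
      TorusRigid Φ → ∀ f, ¬ Entire Φ f) ∧
    (FiniteFibres (values b g) → (∀ f, ¬ Entire Φ f) ∧ AllGeneral Φ) := by
  have hb' := fun q : Fin (s * n) => hb (finProdFinEquiv.symm q).2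
  have hw' := fun q : Fin (s * n) => hwide (finProdFinEquiv.symm q).2
  refine ⟨fun f hf => ?_, fun h hT f hf => ?_, fun hfin =>
    ⟨fun f hf => entire_sym_fin hΨ hΥ hG hon hperm _ _ hb' hw' hfin hf,
      general_sym hΨ hΥ hG hon hperm _ _ hb' hw' hfin⟩⟩
  · obtain ⟨q, hq⟩ := entire_sym hΨ hΥ hG hon hperm _ _ hb' hw' hf
    exact ⟨q, fun t => closed_fibre hΨ hG (hq.mem t)⟩
  · obtain ⟨q, hq⟩ := entire_sym hΨ hΥ hG hon hperm _ _ hb' hw' hf
    exact h q (torus_fibre hΨ hG hT) f hq

/-- The simplest case of the condition on the multiplicities. -/
theorem wide_example {r : ℕ} {S : Finset ℂ} {m : ℂ → ℕ} (hm : ∀ c ∈ S, r < m c)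
    (hsum : 2 * (r : ℝ) < ∑ c ∈ S, (1 - 1 / (m c : ℝ))) : Wide r S m :=
  wide_of hm hsum

end Pool.Agent.Results.MP_45e720_ag.MultivaluedMaps
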